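import Pool.Agent.H15P.Main
import Pool.Agent.H15P.WFI
import Pool.Agent.H15P.CYL
import Pool.Agent.H15P.MOM
import Pool.Agent.H15P.CHE
import Pool.Agent.H15P.LIM
import Pool.Agent.H15P.WSM
import Pool.Agent.H15P.WFM
import Pool.Agent.H15P.WMT

/-! The least number of deletions `f_k(G(n,p))` for every fixed `k ≥ 2` and every `p` above the
Hamiltonicity threshold. -/

open MeasureTheory ProbabilityTheory unitInterval Finset Filter Topology

namespace Pool.Agent.Results.MP_e6ec33_pr.AllProbabilities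

open Pool.Agent.V11328 Pool.Agent.V11328.E6 Pool.Agent.H15P

open Classical in
/-- For every fixed `k ≥ 2`:
(1) if `n p - log n - log log n → ∞` then w.h.p. `f_k(G)` equals the least number of edges of `G`
meeting a set of `k - 1` vertices;
(2) if moreover `n p - log n - (j-1) log log n → ∞` and `n p - log n - j log log n → -∞` for a fixed
`j ≥ 2`, then w.h.p. the minimum degree is `j`, `f_k(G) = (k-1) j`, and the identity
`f_k(G) = k (δ(G) - 1)` holds if and only if `j = k`. -/
theorem result (k : ℕ) (hk : 2 ≤ k) :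
    (∀ p : ℕ → unitInterval,
      Tendsto (fun n : ℕ => (n : ℝ) * p n - Real.log n - Real.log (Real.log n)) atTop atTop →
      Tendsto (fun n : ℕ => (SimpleGraph.binomialRandom (Fin n) (p n))
        {G : SimpleGraph (Fin n) | fk k G = ((minTouch k G : ℕ) : ℕ∞)}) atTop (𝓝 1)) ∧
    (∀ j : ℕ, 2 ≤ j → ∀ p : ℕ → unitInterval,
      Tendsto (fun n : ℕ => (n : ℝ) * p n - Real.log n - ((j : ℝ) - 1) * Real.log (Real.log n))
        atTop atTop →
      Tendsto (fun n : ℕ => (n : ℝ) * p n - Real.log n - j * Real.log (Real.log n)) atTop atBot →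
      Tendsto (fun n : ℕ => (SimpleGraph.binomialRandom (Fin n) (p n))
        {G : SimpleGraph (Fin n) | G.minDegree = j ∧ fk k G = (((k - 1) * j : ℕ) : ℕ∞) ∧
          (fk k G = ((k * (G.minDegree - 1) : ℕ) : ℕ∞) ↔ j = k)}) atTop (𝓝 1)) := by
  refine ⟨fun p hp => m_FIN k hk p hp, fun j hj p h1 h2 => ?_⟩
  have h := s_WFI m_DET m_PNI (s_WSM (s_MOM s_CYL) s_CHE s_LIM) s_WFM s_WMT k j hk hj p h1 h2
  refine h.congr fun n => ?_
  congr 1
  ext G
  simp only [Set.mem_ofPred_eq]
  constructor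
  · rintro ⟨h3, h4⟩
    refine ⟨h3, h4, ?_⟩
    rw [h4, h3]
    obtain ⟨a, rfl⟩ : ∃ a, k = a + 1 := ⟨k - 1, by omega⟩
    obtain ⟨b, rfl⟩ : ∃ b, j = b + 1 := ⟨j - 1, by omega⟩
    have h5 : a + 1 - 1 = a := by omega
    have h6 : b + 1 - 1 = b := by omega
    rw [h5, h6]
    constructor
    · intro h7
      have h8 : a * (b + 1) = (a + 1) * b := by exact_mod_cast h7
      have : a = b := by nlinarith
      rw [this]
    · intro h7
      have : a = b := by omega
      rw [this, mul_comm]
  · rintro ⟨h3, h4, _⟩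
    exact ⟨h3, h4⟩

end Pool.Agent.Results.MP_e6ec33_pr.AllProbabilities
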